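import Pool.Agent.H590R3.PropA4

set_option autoImplicit false

namespace Pool.Agent.Results.MP_5ffaeb_an.NADensityNotInherited

open Filter Topology ZeroAtInfty
open Pool.Agent.H590R3.PropA

/-- The set of norm-attaining operators from `X` to `Y`. -/
def NA (𝕜 X Y : Type*) [RCLike 𝕜] [NormedAddCommGroup X] [NormedSpace 𝕜 X]
    [NormedAddCommGroup Y] [NormedSpace 𝕜 Y] : Set (X →L[𝕜] Y) :=
  {T | ∃ x : X, ‖x‖ = 1 ∧ ‖T x‖ = ‖T‖}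

/-- `X₁` is the range of a norm-one projection of `X`. -/
def OneComplemented {𝕜 X : Type*} [RCLike 𝕜] [NormedAddCommGroup X] [NormedSpace 𝕜 X]
    (X₁ : Submodule 𝕜 X) : Prop :=
  ∃ P : X →L[𝕜] X, (∀ x, P (P x) = P x) ∧ ‖P‖ ≤ 1 ∧ ∀ x, x ∈ X₁ ↔ ∃ y, P y = x

variable {𝕜 : Type} [RCLike 𝕜]

variable (𝕜) in
/-- the subspace -/
noncomputable def X1 : Submodule 𝕜 (XX 𝕜 C₀(ℕ, 𝕜)) :=
  LinearMap.range (PP 𝕜 C₀(ℕ, 𝕜)).toLinearMap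

lemma emb_mem (z : C₀(ℕ, 𝕜)) : (emb z : XX 𝕜 C₀(ℕ, 𝕜)) ∈ X1 𝕜 := ⟨emb z, rfl⟩

lemma X1_eq {u : XX 𝕜 C₀(ℕ, 𝕜)} (hu : u ∈ X1 𝕜) : u = emb (toPr 𝕜 C₀(ℕ, 𝕜) u).1 := by
  obtain ⟨v, rfl⟩ := hu
  rfl

/-- operator to the ambient space -/
noncomputable def J0 : XX 𝕜 C₀(ℕ, 𝕜) →L[𝕜] Amb 𝕜 :=
  (WithLp.prodContinuousLinearEquiv 2 𝕜 C₀(ℕ, 𝕜) (lp (fun _ : ℕ => 𝕜) 2)).symm.toContinuousLinearMap.comp
    (((ContinuousLinearMap.id 𝕜 C₀(ℕ, 𝕜)).prod (Rmap 𝕜)).comp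
      ((ContinuousLinearMap.fst 𝕜 C₀(ℕ, 𝕜) (lp (fun _ : Gam C₀(ℕ, 𝕜) => 𝕜) 1)).comp
        (toPrL 𝕜 C₀(ℕ, 𝕜)).toContinuousLinearMap))

lemma J0_apply (u : XX 𝕜 C₀(ℕ, 𝕜)) :
    J0 u = WithLp.toLp 2 ((toPr 𝕜 C₀(ℕ, 𝕜) u).1, Rmap 𝕜 (toPr 𝕜 C₀(ℕ, 𝕜) u).1) := rfl

/-- the operator on the subspace -/
noncomputable def J : X1 𝕜 →L[𝕜] YY 𝕜 :=
  ((J0 (𝕜 := 𝕜)).comp (X1 𝕜).subtypeL).codRestrict (YY 𝕜) fun _ => YY_mem _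

lemma J_coe (u : X1 𝕜) : ((J u : YY 𝕜) : Amb 𝕜) = J0 (u : XX 𝕜 C₀(ℕ, 𝕜)) := rfl

/-- abstract form of the non-density argument -/
lemma not_dense_abs {E F : Type*} [NormedAddCommGroup E] [NormedSpace 𝕜 E]
    [NormedAddCommGroup F] [NormedSpace 𝕜 F]
    (ι : C₀(ℕ, 𝕜) → E) (hι : ∀ z, ‖ι z‖ = ‖z‖) (hadd : ∀ z w, ι (z + w) = ι z + ι w)
    (hsub : ∀ z w, ι (z - w) = ι z - ι w) (hsurj : ∀ x, ∃ z, ι z = x)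
    (hF : ∀ a v : F, ‖a + v‖ ≤ ‖a‖ → ‖a - v‖ ≤ ‖a‖ → v = 0)
    (J : E →L[𝕜] F) (hJ : ∀ x, ‖x‖ ≤ ‖J x‖) : ¬ Dense (NA 𝕜 E F) := by
  intro hd
  obtain ⟨S, hS, hJS⟩ := hd.exists_dist_lt J (by norm_num : (0 : ℝ) < 1 / 2)
  obtain ⟨x0, hx0, hx1⟩ := hS
  rw [dist_eq_norm] at hJS
  obtain ⟨z0, hz0⟩ := hsurj x0
  have hz0n : ‖z0‖ = 1 := by rw [← hι z0, hz0]; exact hx0
  obtain ⟨i, hi⟩ := C0_exists_small z0 (by norm_num : (0 : ℝ) < 1 / 2)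
  let v : C₀(ℕ, 𝕜) := ((1 / 2 : ℝ) : 𝕜) • e0 𝕜 i
  have hv : ∀ n, ‖v n‖ = if n = i then 1 / 2 else 0 := by
    intro n
    change ‖((1 / 2 : ℝ) : 𝕜) * e0 𝕜 i n‖ = _
    rw [norm_mul, RCLike.norm_ofReal, e0_apply]
    split_ifs <;> simp
  have hp : ∀ n, ‖z0 n‖ + ‖v n‖ ≤ 1 := by
    intro n
    rw [hv n]
    by_cases hn : n = i
    · rw [if_pos hn, hn]; linarith
    · rw [if_neg hn, add_zero, ← hz0n]; exact C0_le z0 n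
  have hplus : ‖z0 + v‖ ≤ 1 := C0_norm_le zero_le_one fun n => (norm_add_le _ _).trans (hp n)
  have hminus : ‖z0 - v‖ ≤ 1 := C0_norm_le zero_le_one fun n => (norm_sub_le _ _).trans (hp n)
  have hwp : ‖x0 + ι v‖ ≤ 1 := by
    rw [← hz0, ← hadd, hι]; exact hplus
  have hwm : ‖x0 - ι v‖ ≤ 1 := by
    rw [← hz0, ← hsub, hι]; exact hminus
  have hSw : S (ι v) = 0 := by
    have h1 : ‖S x0 + S (ι v)‖ ≤ ‖S x0‖ := by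
      rw [hx1, ← map_add]
      exact (S.le_opNorm _).trans (mul_le_of_le_one_right (norm_nonneg _) hwp)
    have h2 : ‖S x0 - S (ι v)‖ ≤ ‖S x0‖ := by
      rw [hx1, ← map_sub]
      exact (S.le_opNorm _).trans (mul_le_of_le_one_right (norm_nonneg _) hwm)
    exact hF _ _ h1 h2
  have h3 : ‖J (ι v)‖ ≤ 1 / 2 * ‖ι v‖ := by
    have : J (ι v) = (J - S) (ι v) := by
      rw [_root_.sub_apply, hSw, sub_zero]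
    rw [this]
    exact (ContinuousLinearMap.le_opNorm _ _).trans
      (mul_le_mul_of_nonneg_right hJS.le (norm_nonneg _))
  have h5 : ‖ι v‖ ≤ ‖J (ι v)‖ := hJ _
  have h6 : 1 / 2 ≤ ‖v‖ := by
    have := C0_le v i
    rwa [hv, if_pos rfl] at this
  rw [hι] at h3 h5
  linarith

lemma not_dense : ¬ Dense (NA 𝕜 (X1 𝕜) (YY 𝕜)) := by
  refine not_dense_abs (fun z => (⟨emb z, emb_mem z⟩ : X1 𝕜)) (fun z => emb_norm z)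
    (fun z w => Subtype.ext (emb_add z w)) (fun z w => Subtype.ext (emb_sub z w))
    (fun x => ⟨(toPr 𝕜 C₀(ℕ, 𝕜) (x : XX 𝕜 C₀(ℕ, 𝕜))).1, Subtype.ext (X1_eq x.2).symm⟩)
    (fun a v h1 h2 => Subtype.ext (YY_strict v.2 h1 h2)) J (fun x => ?_)
  have h1 := norm_fst_le_amb (J0 (x : XX 𝕜 C₀(ℕ, 𝕜)))
  have h2 : ‖x‖ = ‖(toPr 𝕜 C₀(ℕ, 𝕜) (x : XX 𝕜 C₀(ℕ, 𝕜))).1‖ := by
    rw [← emb_norm (𝕜 := 𝕜), ← X1_eq x.2]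
    rfl
  rw [h2]
  exact h1

theorem result.{u} (𝕜 : Type) [RCLike 𝕜] :
    ∃ (X : Type) (_ : NormedAddCommGroup X) (_ : NormedSpace 𝕜 X) (X₁ : Submodule 𝕜 X),
      CompleteSpace X ∧ IsClosed (X₁ : Set X) ∧ OneComplemented X₁ ∧
      (∀ (W : Type u) [NormedAddCommGroup W] [NormedSpace 𝕜 W], Dense (NA 𝕜 X W)) ∧
      ∃ (Y : Type) (_ : NormedAddCommGroup Y) (_ : NormedSpace 𝕜 Y),
        CompleteSpace Y ∧ ¬ Dense (NA 𝕜 X₁ Y) := by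
  have : Nontrivial C₀(ℕ, 𝕜) := ⟨e0 𝕜 0, 0, by
    intro h
    have := e0_norm (𝕜 := 𝕜) 0
    rw [h, norm_zero] at this
    exact zero_ne_one this⟩
  refine ⟨XX 𝕜 C₀(ℕ, 𝕜), inferInstance, inferInstance, X1 𝕜, inferInstance, ?_, ?_, ?_,
    YY 𝕜, inferInstance, inferInstance, inferInstance, not_dense⟩
  · have : (X1 𝕜 : Set (XX 𝕜 C₀(ℕ, 𝕜))) = {u | PP 𝕜 C₀(ℕ, 𝕜) u = u} := by
      ext u
      constructor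
      · rintro ⟨v, rfl⟩
        exact PP_idem v
      · intro h
        exact ⟨u, h⟩
    rw [this]
    exact isClosed_eq (PP 𝕜 C₀(ℕ, 𝕜)).continuous continuous_id
  · exact ⟨PP 𝕜 C₀(ℕ, 𝕜), PP_idem, PP_norm_le, fun x => Iff.rfl⟩
  · intro W _ _
    refine Metric.dense_iff.2 fun T r hr => ?_
    obtain ⟨S, hS, hTS⟩ := exists_attaining T hr
    refine ⟨S, ?_, hS⟩
    rw [Metric.mem_ball, dist_comm, dist_eq_norm]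
    exact hTS

end Pool.Agent.Results.MP_5ffaeb_an.NADensityNotInherited
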